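import Pool.Agent.Lib.H26U.U6

/-!
# H26U, file F: facts on 2-cuts and reductions (FORM D of MP_33911d_co)
-/

set_option autoImplicit false

namespace H26U

open Finset H98P H98M H1FD

variable {V : Type*} [DecidableEq V]

/-- No cut vertex. -/
theorem cutv {Y : Finset V} {G : Finset (Sym2 V)} (hT : TCY Y G) {z w : V} {S : Finset V} (hz : z ∈ Y)
    (hS : S ⊆ Y) (hne : S.Nonempty) (hzS : z ∉ S) (hw : w ∈ Y) (hwS : w ∉ S) (hwz : w ≠ z)
    (h : ∀ a ∈ S, ∀ b ∈ Y, b ∉ S → b ≠ z → s(a, b) ∉ G) : False := by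
  refine hT.2.2 z hz ⟨S, (Y.erase z) \ S, hne, ⟨w, mem_sdiff.2 ⟨mem_erase.2 ⟨hwz, hw⟩, hwS⟩⟩,
    disjoint_sdiff, union_sdiff_of_subset fun a ha => mem_erase.2 ⟨fun e => hzS (e ▸ ha), hS ha⟩, ?_⟩
  intro a ha b hb
  rw [mem_sdiff, mem_erase] at hb
  exact h a ha b hb.1.2 hb.2 hb.1.1

theorem F1core {Y : Finset V} {G : Finset (Sym2 V)} {x y u v : V} {A B C D : Finset V} (hT : TCY Y G)
    (hS : Sep Y G x y A B) (hS' : Sep Y G u v C D) (hx : x ∉ C) (hy : y ∉ C) (hu : u ∈ A) :
    C ⊆ A ∧ u ∉ B ∧ v ∉ B := by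
  have m1 := mem_un hS
  have m2 := mem_un hS'
  have hCA : C ⊆ A := by
    intro c hc
    rcases (m1 c).1 ((m2 c).2 (Or.inr (Or.inr (Or.inl hc)))) with h | h | h | h
    · exact absurd (h ▸ hc) hx
    · exact absurd (h ▸ hc) hy
    · exact h
    · exfalso
      refine cutv hT (z := v) (w := u) (S := C ∩ B) ((m2 v).2 (Or.inr (Or.inl rfl)))
        (fun z hz => (m1 z).2 (Or.inr (Or.inr (Or.inr (mem_inter.1 hz).2)))) ⟨c, mem_inter.2 ⟨hc, h⟩⟩
        (fun h1 => hS'.yA (mem_inter.1 h1).1) ((m2 u).2 (Or.inl rfl))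
        (fun h1 => hS'.xA (mem_inter.1 h1).1) hS'.ne ?_
      intro a ha b hb hbS hbv hab
      rw [mem_inter] at ha
      rcases (m2 b).1 hb with h1 | h1 | h1 | h1
      · rw [h1] at hab
        exact hS.no u hu a ha.2 (by rw [Sym2.eq_swap]; exact hab)
      · exact hbv h1
      · rcases (m1 b).1 hb with h2 | h2 | h2 | h2
        · exact hx (h2 ▸ h1)
        · exact hy (h2 ▸ h1)
        · exact hS.no b h2 a ha.2 (by rw [Sym2.eq_swap]; exact hab)
        · exact hbS (mem_inter.2 ⟨h1, h2⟩)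
      · exact hS'.no a ha.1 b h1 hab
  refine ⟨hCA, disjoint_left.1 hS.dis hu, fun hv => ?_⟩
  refine cutv hT (z := u) (w := v) (S := C) ((m2 u).2 (Or.inl rfl))
    (fun z hz => (m2 z).2 (Or.inr (Or.inr (Or.inl hz)))) hS'.nA hS'.xA ((m2 v).2 (Or.inr (Or.inl rfl)))
    hS'.yA hS'.ne.symm ?_
  intro a ha b hb hbS hbu hab
  rcases (m2 b).1 hb with h1 | h1 | h1 | h1
  · exact hbu h1
  · rw [h1] at hab
    exact hS.no a (hCA ha) v hv hab
  · exact hbS h1
  · exact hS'.no a ha b h1 hab

/-- (F1) A side of a 2-cut which misses `x, y` is on one side of the 2-cut `x, y`. -/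
theorem F1 {Y : Finset V} {G : Finset (Sym2 V)} {x y u v : V} {A B C D : Finset V} (hT : TCY Y G)
    (hS : Sep Y G x y A B) (hS' : Sep Y G u v C D) (hx : x ∉ C) (hy : y ∉ C)
    (e1 : ¬ (x = u ∧ y = v)) (e2 : ¬ (x = v ∧ y = u)) :
    (C ⊆ A ∧ u ∉ B ∧ v ∉ B) ∨ (C ⊆ B ∧ u ∉ A ∧ v ∉ A) := by
  have m1 := mem_un hS
  have m2 := mem_un hS'
  have hv : u = x ∨ u = y → v ∈ A ∨ v ∈ B := by
    intro h
    rcases (m1 v).1 ((m2 v).2 (Or.inr (Or.inl rfl))) with h1 | h1 | h1 | h1
    · rcases h with h | h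
      · exact absurd (h.trans h1.symm) hS'.ne
      · exact absurd ⟨h1.symm, h.symm⟩ e2
    · rcases h with h | h
      · exact absurd ⟨h.symm, h1.symm⟩ e1
      · exact absurd (h.trans h1.symm) hS'.ne
    · exact Or.inl h1
    · exact Or.inr h1
  have hvc : v ∈ A ∨ v ∈ B → (C ⊆ A ∧ u ∉ B ∧ v ∉ B) ∨ (C ⊆ B ∧ u ∉ A ∧ v ∉ A) := by
    rintro (h | h)
    · obtain ⟨h1, h2, h3⟩ := F1core hT hS hS'.swap hx hy h
      exact Or.inl ⟨h1, h3, h2⟩
    · obtain ⟨h1, h2, h3⟩ := F1core hT hS.symm hS'.swap hx hy h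
      exact Or.inr ⟨h1, h3, h2⟩
  rcases (m1 u).1 ((m2 u).2 (Or.inl rfl)) with h | h | h | h
  · exact hvc (hv (Or.inl h))
  · exact hvc (hv (Or.inr h))
  · exact Or.inl (F1core hT hS hS' hx hy h)
  · exact Or.inr (F1core hT hS.symm hS' hx hy h)

/-- A disconnection of the reduced graph gives one of the whole graph. -/
theorem glue {Y : Finset V} {G : Finset (Sym2 V)} {x y : V} {A B R : Finset V}
    (hS : Sep Y G x y A B) (hR : R ⊆ insert x (insert y A)) (hd : Disc R (insert s(x, y) G)) :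
    Disc (R ∪ B) G := by
  have key : ∀ P Q : Finset V, P.Nonempty → Q.Nonempty → Disjoint P Q → P ∪ Q = R →
      (∀ a ∈ P, ∀ b ∈ Q, s(a, b) ∉ insert s(x, y) G) → x ∉ Q → y ∉ Q → Disc (R ∪ B) G := by
    intro P Q h1 h2 h3 h4 h5 hx hy
    have hQA : ∀ q ∈ Q, q ∈ A := by
      intro q hq
      rcases mem_insert.1 (hR (h4 ▸ mem_union_right _ hq)) with h | h
      · exact absurd (h ▸ hq) hx
      · rcases mem_insert.1 h with h | h
        · exact absurd (h ▸ hq) hy
        · exact h
    refine ⟨P ∪ B, Q, h1.mono subset_union_left, h2, ?_, ?_, ?_⟩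
    · refine disjoint_left.2 fun z hz hq => ?_
      rcases mem_union.1 hz with h | h
      · exact disjoint_left.1 h3 h hq
      · exact disjoint_left.1 hS.dis (hQA z hq) h
    · rw [← h4]
      ext z
      simp only [mem_union]
      tauto
    · intro a ha b hb hab
      rcases mem_union.1 ha with h | h
      · exact h5 a h b hb (mem_insert_of_mem hab)
      · exact hS.no b (hQA b hb) a h (by rw [Sym2.eq_swap]; exact hab)
  obtain ⟨P, Q, h1, h2, h3, h4, h5⟩ := hd
  by_cases h : x ∉ Q ∧ y ∉ Q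
  · exact key P Q h1 h2 h3 h4 h5 h.1 h.2
  · refine key Q P h2 h1 h3.symm (by rw [union_comm]; exact h4)
      (fun a ha b hb hab => h5 b hb a ha (by rw [Sym2.eq_swap (a := b)]; exact hab)) ?_ ?_
    · intro hx
      by_cases hy : y ∈ Q
      · exact h5 x hx y hy (mem_insert_self _ _)
      · by_cases hxQ : x ∈ Q
        · exact disjoint_left.1 h3 hx hxQ
        · exact h ⟨hxQ, hy⟩
    · intro hy
      by_cases hx : x ∈ Q
      · exact h5 y hy x hx (by rw [Sym2.eq_swap]; exact mem_insert_self _ _)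
      · by_cases hyQ : y ∈ Q
        · exact disjoint_left.1 h3 hy hyQ
        · exact h ⟨hx, hyQ⟩

/-- (T) The reduced graph is 2-connected. -/
theorem T {Y : Finset V} {G : Finset (Sym2 V)} {x y : V} {A B : Finset V} (hT : TCY Y G)
    (hS : Sep Y G x y A B) : TCY (insert x (insert y A)) (insert s(x, y) G) := by
  have m1 := mem_un hS
  refine ⟨?_, ?_, ?_⟩
  · rw [card_insert_of_notMem, card_insert_of_notMem hS.yA]
    · have := hS.nA.card_pos
      omega
    · rw [mem_insert]
      rintro (h | h)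
      · exact hS.ne h
      · exact hS.xA h
  · intro hd
    have h := glue hS (Subset.refl _) hd
    have h2 : insert x (insert y A) ∪ B = Y := by
      ext z
      rw [m1 z]
      simp only [mem_union, mem_insert]
      tauto
    rw [h2] at h
    exact hT.2.1 h
  · intro v hv hd
    have h := glue hS (erase_subset _ _) hd
    have hvB : v ∉ B := by
      intro h1
      rcases mem_insert.1 hv with h2 | h2
      · exact hS.xB (h2 ▸ h1)
      · rcases mem_insert.1 h2 with h2 | h2
        · exact hS.yB (h2 ▸ h1)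
        · exact disjoint_left.1 hS.dis h2 h1
    have h2 : (insert x (insert y A)).erase v ∪ B = Y.erase v := by
      ext z
      rw [mem_erase, m1 z]
      simp only [mem_union, mem_insert, mem_erase]
      constructor
      · rintro (⟨h3, h4⟩ | h3)
        · exact ⟨h3, by tauto⟩
        · exact ⟨fun e => hvB (e ▸ h3), by tauto⟩
      · tauto
    rw [h2] at h
    exact hT.2.2 v ((m1 v).2 (by simp only [mem_insert] at hv; tauto)) h

/-- (Ur) A pair of kept vertices which is not separated stays so. -/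
theorem Ur {Y : Finset V} {G : Finset (Sym2 V)} {x y u v : V} {C D : Finset V}
    (hS : Sep Y G u v C D) (hU : Unc Y G x y) :
    Unc (insert u (insert v C)) (insert s(u, v) G) x y := by
  intro p q P Q h hxP hyQ
  have m1 := mem_un hS
  have m2 := mem_un h
  have mD : ∀ z, z ∈ insert u (insert v C) → z ∉ D := by
    intro z hz hzD
    rcases mem_insert.1 hz with h2 | h2
    · exact hS.xB (h2 ▸ hzD)
    · rcases mem_insert.1 h2 with h2 | h2
      · exact hS.yB (h2 ▸ hzD)
      · exact disjoint_left.1 hS.dis h2 hzD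
  have key : ∀ {P Q : Finset V}, Sep (insert u (insert v C)) (insert s(u, v) G) p q P Q →
      u ∉ Q → v ∉ Q → Sep Y G p q (P ∪ D) Q := by
    intro P Q h hu hv
    have m2 := mem_un h
    have hQC : ∀ z ∈ Q, z ∈ C := by
      intro z hz
      have h1 := (m2 z).2 (Or.inr (Or.inr (Or.inr hz)))
      rcases mem_insert.1 h1 with h2 | h2
      · exact absurd (h2 ▸ hz) hu
      · rcases mem_insert.1 h2 with h2 | h2
        · exact absurd (h2 ▸ hz) hv
        · exact h2
    refine ⟨h.ne, ?_, h.xB, ?_, h.yB, h.nA.mono subset_union_left, h.nB, ?_, ?_, ?_⟩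
    · intro h1
      rcases mem_union.1 h1 with h2 | h2
      · exact h.xA h2
      · exact mD p ((m2 p).2 (Or.inl rfl)) h2
    · intro h1
      rcases mem_union.1 h1 with h2 | h2
      · exact h.yA h2
      · exact mD q ((m2 q).2 (Or.inr (Or.inl rfl))) h2
    · refine disjoint_left.2 fun z h1 h2 => ?_
      rcases mem_union.1 h1 with h3 | h3
      · exact disjoint_left.1 h.dis h3 h2
      · exact disjoint_left.1 hS.dis (hQC z h2) h3
    · ext z
      rw [m1 z]
      have k := m2 z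
      rw [mem_insert, mem_insert] at k
      simp only [mem_insert, mem_union]
      tauto
    · intro a ha b hb hab
      rcases mem_union.1 ha with h2 | h2
      · exact h.no a h2 b hb (mem_insert_of_mem hab)
      · exact hS.no b (hQC b hb) a h2 (by rw [Sym2.eq_swap]; exact hab)
  by_cases h1 : u ∉ Q ∧ v ∉ Q
  · exact hU p q _ _ (key h h1.1 h1.2) (mem_union_left _ hxP) hyQ
  · refine hU p q _ _ (key h.symm ?_ ?_).symm hxP (mem_union_left _ hyQ)
    · intro hu
      by_cases hv : v ∈ Q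
      · exact h.no u hu v hv (mem_insert_self _ _)
      · exact h1 ⟨disjoint_left.1 h.dis hu, hv⟩
    · intro hv
      by_cases hu : u ∈ Q
      · exact h.no v hv u hu (by rw [Sym2.eq_swap]; exact mem_insert_self _ _)
      · exact h1 ⟨hu, disjoint_left.1 h.dis hv⟩

theorem LW_mono {Y Z : Finset V} (h : Y ⊆ Z) {e : Sym2 V} (he : e ∈ LW Y) : e ∈ LW Z := by
  unfold LW at he ⊢
  rw [mem_filter] at he ⊢
  exact ⟨Finset.sym2_mono h he.1, he.2⟩

/-- (U1) -/
theorem U1 {Y : Finset V} {G : Finset (Sym2 V)} {W : Finset V} (h : UU Y G W) :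
    ∀ {W' : Finset V}, W ⊆ W' → UU Y G W' := by
  induction h with
  | base h0 =>
    intro W' hW
    exact UU.base fun h1 => h0 (H85TF.cov_sub (inter_subset_inter_right hW) h1)
  | step hS _ ih =>
    intro W' hW
    exact UU.step hS (ih hW)

/-- (U2) -/
theorem U2 {Y : Finset V} {G' : Finset (Sym2 V)} {W : Finset V} (h : UU Y G' W) :
    ∀ {G : Finset (Sym2 V)}, (∀ e ∈ G, e ∈ LW Y → e ∈ G') → UU Y G W := by
  induction h with
  | base h0 =>
    intro G hG
    refine UU.base fun h1 => h0 (H85TF.cov_edges (fun e he => ?_) h1)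
    rw [mem_inter] at he ⊢
    exact ⟨hG e he.1 he.2, he.2⟩
  | @step Y G' W x y A B hS _ ih =>
    intro G hG
    refine UU.step (hS.anti hG) (ih fun e he hL => ?_)
    rcases mem_insert.1 he with h1 | h1
    · exact mem_insert.2 (Or.inl h1)
    · refine mem_insert_of_mem (hG e h1 (LW_mono (fun z hz => ?_) hL))
      rw [mem_un hS z]
      simp only [mem_insert] at hz
      tauto

end H26U
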