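import Pool.Agent.Lib.H1FD.Defs

/-!
# H26U, file U6: `UU` and an uncrossed 2-cut (FORM D of MP_33911d_co)
-/

set_option autoImplicit false

namespace H26U

open Finset H98P H98M H1FD

variable {V : Type*} [DecidableEq V]

theorem mem_un {Y : Finset V} {G : Finset (Sym2 V)} {x y : V} {A B : Finset V} (h : Sep Y G x y A B)
    (z : V) : z ∈ Y ↔ z = x ∨ z = y ∨ z ∈ A ∨ z ∈ B := by
  rw [← h.un]
  simp

/-- An adjacent pair is not separated. -/
theorem unc_edge {Y : Finset V} {G : Finset (Sym2 V)} {x y : V} (h : s(x, y) ∈ G) : Unc Y G x y :=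
  fun _ _ _ _ hs hx hy => hs.no x hx y hy h

/-- (U6) -/
theorem U6
    (hT : ∀ {Y : Finset V} {G : Finset (Sym2 V)} {x y : V} {A B : Finset V}, TCY Y G →
      Sep Y G x y A B → TCY (insert x (insert y A)) (insert s(x, y) G))
    (hU2 : ∀ {Y : Finset V} {G G' : Finset (Sym2 V)} {W : Finset V}, (∀ e ∈ G, e ∈ LW Y → e ∈ G') →
      UU Y G' W → UU Y G W)
    (hU4 : ∀ {Y : Finset V} {G : Finset (Sym2 V)} {x y : V} {A B S : Finset V}, TCY Y G →
      Sep Y G x y A B → Disjoint S B → CovY (insert x (insert y A)) (insert s(x, y) G) S → CovY Y G S)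
    (hU5 : ∀ {Y : Finset V} {G : Finset (Sym2 V)} {x y : V} {W : Finset V}, TCY Y G → x ∈ Y → y ∈ Y →
      W ∩ Y ⊆ {x, y} → ¬ UU Y G W)
    (hF1 : ∀ {Y : Finset V} {G : Finset (Sym2 V)} {x y u v : V} {A B C D : Finset V}, TCY Y G →
      Sep Y G x y A B → Sep Y G u v C D → x ∉ C → y ∉ C → ¬ (x = u ∧ y = v) → ¬ (x = v ∧ y = u) →
      (C ⊆ A ∧ u ∉ B ∧ v ∉ B) ∨ (C ⊆ B ∧ u ∉ A ∧ v ∉ A))
    (hUr : ∀ {Y : Finset V} {G : Finset (Sym2 V)} {x y u v : V} {C D : Finset V}, TCY Y G →
      Sep Y G u v C D → Unc Y G x y → x ∉ D → y ∉ D → x ∈ Y → y ∈ Y →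
      Unc (insert u (insert v C)) (insert s(u, v) G) x y)
    {Y : Finset V} {G : Finset (Sym2 V)} {W : Finset V} (h : UU Y G W) :
    ∀ {x y : V} {A B : Finset V}, TCY Y G → Sep Y G x y A B → Unc Y G x y → Disjoint W B →
      UU (insert x (insert y A)) (insert s(x, y) G) W := by
  induction h with
  | base h0 =>
    intro x y A B hTC hS hU hW
    exact UU.base fun h1 => h0 (hU4 hTC hS hW h1)
  | @step Y G W u v C D hS' hUU ih =>
    -- the case of one and the same cut
    have same : ∀ {A B : Finset V}, TCY Y G → Sep Y G u v A B → Disjoint W B →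
        UU (insert u (insert v A)) (insert s(u, v) G) W := by
      intro A B hTC hS hW
      have m1 := mem_un hS
      have m2 := mem_un hS'
      have hTC1 := hT hTC hS'
      by_cases hAC : (A ∩ C).Nonempty
      swap
      · refine absurd hUU (hU5 hTC1 (x := u) (y := v) (mem_insert_self _ _)
          (mem_insert_of_mem (mem_insert_self _ _)) fun z hz => ?_)
        rw [mem_inter, mem_insert, mem_insert] at hz
        rw [mem_insert, mem_singleton]
        rcases hz.2 with h1 | h1 | h1
        · exact Or.inl h1
        · exact Or.inr h1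
        · rcases (m1 z).1 ((m2 z).2 (Or.inr (Or.inr (Or.inl h1)))) with h2 | h2 | h2 | h2
          · exact Or.inl h2
          · exact Or.inr h2
          · exact absurd ⟨z, mem_inter.2 ⟨h2, h1⟩⟩ hAC
          · exact absurd h2 (disjoint_left.1 hW hz.1)
      -- the last step, from `A ∩ C` to `A`
      have last : UU (insert u (insert v (A ∩ C))) (insert s(u, v) G) W →
          UU (insert u (insert v A)) (insert s(u, v) G) W := by
        intro hUA
        by_cases hAD : (A ∩ D).Nonempty
        · refine UU.step (x := u) (y := v) (A := A ∩ C) (B := A ∩ D) ?_ ?_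
          · refine ⟨hS.ne, fun h1 => hS.xA (mem_inter.1 h1).1, fun h1 => hS.xA (mem_inter.1 h1).1,
              fun h1 => hS.yA (mem_inter.1 h1).1, fun h1 => hS.yA (mem_inter.1 h1).1, hAC, hAD,
              disjoint_left.2 fun z h1 h2 =>
                disjoint_left.1 hS'.dis (mem_inter.1 h1).2 (mem_inter.1 h2).2, ?_, ?_⟩
            · rw [← inter_union_distrib_left]
              congr 2
              refine inter_eq_left.2 fun z hz => ?_
              rcases (m2 z).1 ((m1 z).2 (Or.inr (Or.inr (Or.inl hz)))) with h2 | h2 | h2 | h2
              · exact absurd (h2 ▸ hz) hS.xA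
              · exact absurd (h2 ▸ hz) hS.yA
              · exact mem_union_left _ h2
              · exact mem_union_right _ h2
            · intro a ha b hb hab
              rcases mem_insert.1 hab with h2 | h2
              · rcases Sym2.eq_iff.1 h2 with ⟨rfl, rfl⟩ | ⟨rfl, rfl⟩
                · exact hS.xA (mem_inter.1 ha).1
                · exact hS.yA (mem_inter.1 ha).1
              · exact hS'.no a (mem_inter.1 ha).2 b (mem_inter.1 hb).2 h2
          · rwa [insert_idem]
        · have : A ∩ C = A := by
            refine inter_eq_left.2 fun z hz => ?_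
            rcases (m2 z).1 ((m1 z).2 (Or.inr (Or.inr (Or.inl hz)))) with h2 | h2 | h2 | h2
            · exact absurd (h2 ▸ hz) hS.xA
            · exact absurd (h2 ▸ hz) hS.yA
            · exact h2
            · exact absurd ⟨z, mem_inter.2 ⟨hz, h2⟩⟩ hAD
          rwa [this] at hUA
      refine last ?_
      by_cases hBC : (B ∩ C).Nonempty
      · have h1 := ih (x := u) (y := v) (A := A ∩ C) (B := B ∩ C) hTC1 ?_
          (unc_edge (mem_insert_self _ _)) ?_
        · rwa [insert_idem] at h1
        · refine ⟨hS.ne, fun h1 => hS.xA (mem_inter.1 h1).1, fun h1 => hS.xB (mem_inter.1 h1).1,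
            fun h1 => hS.yA (mem_inter.1 h1).1, fun h1 => hS.yB (mem_inter.1 h1).1, hAC, hBC,
            disjoint_left.2 fun z h1 h2 =>
              disjoint_left.1 hS.dis (mem_inter.1 h1).1 (mem_inter.1 h2).1, ?_, ?_⟩
          · rw [← union_inter_distrib_right]
            congr 2
            refine inter_eq_right.2 fun z hz => ?_
            rcases (m1 z).1 ((m2 z).2 (Or.inr (Or.inr (Or.inl hz)))) with h2 | h2 | h2 | h2
            · exact absurd (h2 ▸ hz) hS'.xA
            · exact absurd (h2 ▸ hz) hS'.yA
            · exact mem_union_left _ h2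
            · exact mem_union_right _ h2
          · intro a ha b hb hab
            rcases mem_insert.1 hab with h2 | h2
            · rcases Sym2.eq_iff.1 h2 with ⟨rfl, rfl⟩ | ⟨rfl, rfl⟩
              · exact hS.xA (mem_inter.1 ha).1
              · exact hS.yA (mem_inter.1 ha).1
            · exact hS.no a (mem_inter.1 ha).1 b (mem_inter.1 hb).1 h2
        · exact disjoint_left.2 fun z h1 h2 => disjoint_left.1 hW h1 (mem_inter.1 h2).1
      · have : A ∩ C = C := by
          refine inter_eq_right.2 fun z hz => ?_
          rcases (m1 z).1 ((m2 z).2 (Or.inr (Or.inr (Or.inl hz)))) with h2 | h2 | h2 | h2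
          · exact absurd (h2 ▸ hz) hS'.xA
          · exact absurd (h2 ▸ hz) hS'.yA
          · exact h2
          · exact absurd ⟨z, mem_inter.2 ⟨h2, hz⟩⟩ hBC
        rwa [this]
    intro x y A B hTC hS hU hW
    have m1 := mem_un hS
    have m2 := mem_un hS'
    have hTC1 := hT hTC hS'
    by_cases e1 : x = u ∧ y = v
    · obtain ⟨rfl, rfl⟩ := e1
      exact same hTC hS hW
    by_cases e2 : x = v ∧ y = u
    · obtain ⟨rfl, rfl⟩ := e2
      have h1 := same hTC hS.swap hW
      rwa [insert_comm, Sym2.eq_swap] at h1
    have hxY : x ∈ Y := (m1 x).2 (Or.inl rfl)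
    have hyY : y ∈ Y := (m1 y).2 (Or.inr (Or.inl rfl))
    by_cases hc : x ∉ C ∧ y ∉ C
    · -- the kept side `C` misses `x, y`
      rcases hF1 hTC hS hS' hc.1 hc.2 e1 e2 with ⟨h1, h2, h3⟩ | ⟨h1, h2, h3⟩
      · -- inside `A`
        refine UU.step (x := u) (y := v) (A := C) (B := D ∩ insert x (insert y A)) ?_ ?_
        · refine ⟨hS'.ne, hS'.xA, fun h4 => hS'.xB (mem_inter.1 h4).1, hS'.yA,
            fun h4 => hS'.yB (mem_inter.1 h4).1, hS'.nA, ?_, disjoint_left.2 fun z h4 h5 =>
              disjoint_left.1 hS'.dis h4 (mem_inter.1 h5).1, ?_, ?_⟩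
          · rcases (m2 x).1 hxY with h4 | h4 | h4 | h4
            · rcases (m2 y).1 hyY with h5 | h5 | h5 | h5
              · exact absurd (h4.trans h5.symm) hS.ne
              · exact absurd ⟨h4, h5⟩ e1
              · exact absurd h5 hc.2
              · exact ⟨y, mem_inter.2 ⟨h5, by simp⟩⟩
            · rcases (m2 y).1 hyY with h5 | h5 | h5 | h5
              · exact absurd ⟨h4, h5⟩ e2
              · exact absurd (h4.trans h5.symm) hS.ne
              · exact absurd h5 hc.2
              · exact ⟨y, mem_inter.2 ⟨h5, by simp⟩⟩
            · exact absurd h4 hc.1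
            · exact ⟨x, mem_inter.2 ⟨h4, by simp⟩⟩
          · ext z
            rw [mem_insert, mem_insert, mem_union, mem_inter, mem_insert, mem_insert]
            have k1 := m1 z
            have k2 := m2 z
            constructor
            · rintro (h4 | h4 | h4 | h4)
              · rcases k1.1 (k2.2 (Or.inl h4)) with h5 | h5 | h5 | h5
                · exact Or.inl h5
                · exact Or.inr (Or.inl h5)
                · exact Or.inr (Or.inr h5)
                · exact absurd (h4 ▸ h5) h2
              · rcases k1.1 (k2.2 (Or.inr (Or.inl h4))) with h5 | h5 | h5 | h5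
                · exact Or.inl h5
                · exact Or.inr (Or.inl h5)
                · exact Or.inr (Or.inr h5)
                · exact absurd (h4 ▸ h5) h3
              · exact Or.inr (Or.inr (h1 h4))
              · exact h4.2
            · intro h4
              have h5 : z ∈ Y := by
                rcases h4 with h4 | h4 | h4
                · exact k1.2 (Or.inl h4)
                · exact k1.2 (Or.inr (Or.inl h4))
                · exact k1.2 (Or.inr (Or.inr (Or.inl h4)))
              rcases k2.1 h5 with h6 | h6 | h6 | h6
              · exact Or.inl h6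
              · exact Or.inr (Or.inl h6)
              · exact Or.inr (Or.inr (Or.inl h6))
              · exact Or.inr (Or.inr (Or.inr ⟨h6, h4⟩))
          · intro a ha b hb hab
            rcases mem_insert.1 hab with h4 | h4
            · rcases Sym2.eq_iff.1 h4 with ⟨rfl, rfl⟩ | ⟨rfl, rfl⟩
              · exact hc.1 ha
              · exact hc.2 ha
            · exact hS'.no a ha b (mem_inter.1 hb).1 h4
        · refine hU2 (fun e he hL => ?_) hUU
          rcases mem_insert.1 he with h4 | h4
          · exact mem_insert.2 (Or.inl h4)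
          rcases mem_insert.1 h4 with h5 | h5
          · exfalso
            rw [h5] at hL
            unfold LW at hL
            have h6 := (mem_filter.1 hL).1
            rw [mk_mem_sym2_iff, mem_insert, mem_insert, mem_insert, mem_insert] at h6
            rcases h6.1 with h7 | h7 | h7
            · rcases h6.2 with h8 | h8 | h8
              · exact hS.ne (h7.trans h8.symm)
              · exact e1 ⟨h7, h8⟩
              · exact hc.2 h8
            · rcases h6.2 with h8 | h8 | h8
              · exact e2 ⟨h7, h8⟩
              · exact hS.ne (h7.trans h8.symm)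
              · exact hc.2 h8
            · exact hc.1 h7
          · exact mem_insert_of_mem h5
      · -- inside `B`
        refine absurd hUU (hU5 hTC1 (x := u) (y := v) (mem_insert_self _ _)
          (mem_insert_of_mem (mem_insert_self _ _)) fun z hz => ?_)
        rw [mem_inter, mem_insert, mem_insert] at hz
        rw [mem_insert, mem_singleton]
        rcases hz.2 with h4 | h4 | h4
        · exact Or.inl h4
        · exact Or.inr h4
        · exact absurd (h1 h4) (disjoint_left.1 hW hz.1)
    · -- the dropped side `D` misses `x, y`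
      have hd : x ∉ D ∧ y ∉ D := by
        constructor
        · intro h1
          by_cases h2 : y ∈ C
          · exact hU.symm u v C D hS' h2 h1
          · by_cases h3 : x ∈ C
            · exact disjoint_left.1 hS'.dis h3 h1
            · exact hc ⟨h3, h2⟩
        · intro h1
          by_cases h2 : x ∈ C
          · exact hU u v C D hS' h2 h1
          · by_cases h3 : y ∈ C
            · exact disjoint_left.1 hS'.dis h3 h1
            · exact hc ⟨h2, h3⟩
      have hUr1 := hUr hTC hS' hU hd.1 hd.2 hxY hyY
      have hcd : x ∈ C ∨ y ∈ C := by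
        by_contra h1
        push Not at h1
        exact hc h1
      rcases hF1 hTC hS hS'.symm hd.1 hd.2 e1 e2 with ⟨h1, h2, h3⟩ | ⟨h1, h2, h3⟩
      · -- `D` inside `A`
        have hBC : ∀ z ∈ B, z ∈ C := by
          intro z hz
          rcases (m2 z).1 ((m1 z).2 (Or.inr (Or.inr (Or.inr hz)))) with h4 | h4 | h4 | h4
          · exact absurd (h4 ▸ hz) h2
          · exact absurd (h4 ▸ hz) h3
          · exact h4
          · exact absurd hz (disjoint_left.1 hS.dis (h1 h4))
        have huv : u ∈ A ∨ v ∈ A := by
          rcases (m1 u).1 ((m2 u).2 (Or.inl rfl)) with h4 | h4 | h4 | h4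
          · rcases (m1 v).1 ((m2 v).2 (Or.inr (Or.inl rfl))) with h5 | h5 | h5 | h5
            · exact absurd (h4.trans h5.symm) hS'.ne
            · exact absurd ⟨h4.symm, h5.symm⟩ e1
            · exact Or.inr h5
            · exact absurd h5 h3
          · rcases (m1 v).1 ((m2 v).2 (Or.inr (Or.inl rfl))) with h5 | h5 | h5 | h5
            · exact absurd ⟨h5.symm, h4.symm⟩ e2
            · exact absurd (h4.trans h5.symm) hS'.ne
            · exact Or.inr h5
            · exact absurd h5 h3
          · exact Or.inl h4
          · exact absurd h4 h2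
        have h4 := ih (x := x) (y := y) (A := A \ D) (B := B) hTC1 ?_ hUr1 hW
        · refine UU.step (x := u) (y := v) (A := C ∩ insert x (insert y A)) (B := D) ?_ ?_
          · refine ⟨hS'.ne, fun h5 => hS'.xA (mem_inter.1 h5).1, hS'.xB,
              fun h5 => hS'.yA (mem_inter.1 h5).1, hS'.yB, ?_, hS'.nB,
              disjoint_left.2 fun z h5 h6 => disjoint_left.1 hS'.dis (mem_inter.1 h5).1 h6, ?_, ?_⟩
            · rcases hcd with h5 | h5
              · exact ⟨x, mem_inter.2 ⟨h5, by simp⟩⟩
              · exact ⟨y, mem_inter.2 ⟨h5, by simp⟩⟩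
            · ext z
              rw [mem_insert, mem_insert, mem_union, mem_inter, mem_insert, mem_insert]
              have k1 := m1 z
              have k2 := m2 z
              constructor
              · rintro (h5 | h5 | h5 | h5)
                · rcases k1.1 (k2.2 (Or.inl h5)) with h6 | h6 | h6 | h6
                  · exact Or.inl h6
                  · exact Or.inr (Or.inl h6)
                  · exact Or.inr (Or.inr h6)
                  · exact absurd (h5 ▸ h6) h2
                · rcases k1.1 (k2.2 (Or.inr (Or.inl h5))) with h6 | h6 | h6 | h6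
                  · exact Or.inl h6
                  · exact Or.inr (Or.inl h6)
                  · exact Or.inr (Or.inr h6)
                  · exact absurd (h5 ▸ h6) h3
                · exact h5.2
                · exact Or.inr (Or.inr (h1 h5))
              · intro h5
                have h6 : z ∈ Y := by
                  rcases h5 with h5 | h5 | h5
                  · exact k1.2 (Or.inl h5)
                  · exact k1.2 (Or.inr (Or.inl h5))
                  · exact k1.2 (Or.inr (Or.inr (Or.inl h5)))
                rcases k2.1 h6 with h7 | h7 | h7 | h7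
                · exact Or.inl h7
                · exact Or.inr (Or.inl h7)
                · exact Or.inr (Or.inr (Or.inl ⟨h7, h5⟩))
                · exact Or.inr (Or.inr (Or.inr h7))
            · intro a ha b hb hab
              rcases mem_insert.1 hab with h5 | h5
              · rcases Sym2.eq_iff.1 h5 with ⟨rfl, rfl⟩ | ⟨rfl, rfl⟩
                · exact hd.2 hb
                · exact hd.1 hb
              · exact hS'.no a (mem_inter.1 ha).1 b hb h5
          · have h5 : insert u (insert v (C ∩ insert x (insert y A))) =
                insert x (insert y (A \ D)) := by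
              ext z
              rw [mem_insert, mem_insert, mem_inter, mem_insert, mem_insert, mem_insert, mem_insert,
                mem_sdiff]
              have k1 := m1 z
              have k2 := m2 z
              constructor
              · rintro (h5 | h5 | h5)
                · rcases k1.1 (k2.2 (Or.inl h5)) with h6 | h6 | h6 | h6
                  · exact Or.inl h6
                  · exact Or.inr (Or.inl h6)
                  · exact Or.inr (Or.inr ⟨h6, h5 ▸ hS'.xB⟩)
                  · exact absurd (h5 ▸ h6) h2
                · rcases k1.1 (k2.2 (Or.inr (Or.inl h5))) with h6 | h6 | h6 | h6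
                  · exact Or.inl h6
                  · exact Or.inr (Or.inl h6)
                  · exact Or.inr (Or.inr ⟨h6, h5 ▸ hS'.yB⟩)
                  · exact absurd (h5 ▸ h6) h3
                · rcases h5.2 with h6 | h6 | h6
                  · exact Or.inl h6
                  · exact Or.inr (Or.inl h6)
                  · exact Or.inr (Or.inr ⟨h6, disjoint_left.1 hS'.dis h5.1⟩)
              · intro h5
                have h6 : z ∈ Y ∧ z ∉ D ∧ (z = x ∨ z = y ∨ z ∈ A) := by
                  rcases h5 with h5 | h5 | h5
                  · exact ⟨k1.2 (Or.inl h5), h5 ▸ hd.1, Or.inl h5⟩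
                  · exact ⟨k1.2 (Or.inr (Or.inl h5)), h5 ▸ hd.2, Or.inr (Or.inl h5)⟩
                  · exact ⟨k1.2 (Or.inr (Or.inr (Or.inl h5.1))), h5.2, Or.inr (Or.inr h5.1)⟩
                rcases k2.1 h6.1 with h7 | h7 | h7 | h7
                · exact Or.inl h7
                · exact Or.inr (Or.inl h7)
                · exact Or.inr (Or.inr ⟨h7, h6.2.2⟩)
                · exact absurd h7 h6.2.1
            rw [h5, Finset.insert_comm s(u, v) s(x, y)]
            exact h4
        · refine ⟨hS.ne, fun h5 => hS.xA (mem_sdiff.1 h5).1, hS.xB,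
            fun h5 => hS.yA (mem_sdiff.1 h5).1, hS.yB, ?_, hS.nB,
            disjoint_left.2 fun z h5 h6 => disjoint_left.1 hS.dis (mem_sdiff.1 h5).1 h6, ?_, ?_⟩
          · rcases huv with h5 | h5
            · exact ⟨u, mem_sdiff.2 ⟨h5, hS'.xB⟩⟩
            · exact ⟨v, mem_sdiff.2 ⟨h5, hS'.yB⟩⟩
          · ext z
            rw [mem_insert, mem_insert, mem_union, mem_sdiff, mem_insert, mem_insert]
            have k1 := m1 z
            have k2 := m2 z
            constructor
            · intro h5
              have h6 : z ∈ Y ∧ z ∉ D := by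
                rcases h5 with h5 | h5 | h5 | h5
                · exact ⟨k1.2 (Or.inl h5), h5 ▸ hd.1⟩
                · exact ⟨k1.2 (Or.inr (Or.inl h5)), h5 ▸ hd.2⟩
                · exact ⟨k1.2 (Or.inr (Or.inr (Or.inl h5.1))), h5.2⟩
                · exact ⟨k1.2 (Or.inr (Or.inr (Or.inr h5))), disjoint_left.1 hS'.dis (hBC z h5)⟩
              rcases k2.1 h6.1 with h7 | h7 | h7 | h7
              · exact Or.inl h7
              · exact Or.inr (Or.inl h7)
              · exact Or.inr (Or.inr h7)
              · exact absurd h7 h6.2
            · intro h5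
              have h6 : z ∈ Y ∧ z ∉ D := by
                rcases h5 with h5 | h5 | h5
                · exact ⟨k2.2 (Or.inl h5), h5 ▸ hS'.xB⟩
                · exact ⟨k2.2 (Or.inr (Or.inl h5)), h5 ▸ hS'.yB⟩
                · exact ⟨k2.2 (Or.inr (Or.inr (Or.inl h5))), disjoint_left.1 hS'.dis h5⟩
              rcases k1.1 h6.1 with h7 | h7 | h7 | h7
              · exact Or.inl h7
              · exact Or.inr (Or.inl h7)
              · exact Or.inr (Or.inr (Or.inl ⟨h7, h6.2⟩))
              · exact Or.inr (Or.inr (Or.inr h7))
          · intro a ha b hb hab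
            rcases mem_insert.1 hab with h5 | h5
            · rcases Sym2.eq_iff.1 h5 with ⟨rfl, rfl⟩ | ⟨rfl, rfl⟩
              · exact h3 hb
              · exact h2 hb
            · exact hS.no a (mem_sdiff.1 ha).1 b hb h5
      · -- `D` inside `B`
        have hAC : ∀ z ∈ A, z ∈ C := by
          intro z hz
          rcases (m2 z).1 ((m1 z).2 (Or.inr (Or.inr (Or.inl hz)))) with h4 | h4 | h4 | h4
          · exact absurd (h4 ▸ hz) h2
          · exact absurd (h4 ▸ hz) h3
          · exact h4
          · exact absurd (h1 h4) (disjoint_left.1 hS.dis hz)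
        have huv : u ∈ B ∨ v ∈ B := by
          rcases (m1 u).1 ((m2 u).2 (Or.inl rfl)) with h4 | h4 | h4 | h4
          · rcases (m1 v).1 ((m2 v).2 (Or.inr (Or.inl rfl))) with h5 | h5 | h5 | h5
            · exact absurd (h4.trans h5.symm) hS'.ne
            · exact absurd ⟨h4.symm, h5.symm⟩ e1
            · exact absurd h5 h3
            · exact Or.inr h5
          · rcases (m1 v).1 ((m2 v).2 (Or.inr (Or.inl rfl))) with h5 | h5 | h5 | h5
            · exact absurd ⟨h5.symm, h4.symm⟩ e2
            · exact absurd (h4.trans h5.symm) hS'.ne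
            · exact absurd h5 h3
            · exact Or.inr h5
          · exact absurd h4 h2
          · exact Or.inl h4
        have h4 := ih (x := x) (y := y) (A := A) (B := B \ D) hTC1 ?_ hUr1
          (disjoint_left.2 fun z h5 h6 => disjoint_left.1 hW h5 (mem_sdiff.1 h6).1)
        · refine hU2 (fun e he _ => ?_) h4
          rcases mem_insert.1 he with h5 | h5
          · exact mem_insert.2 (Or.inl h5)
          · exact mem_insert_of_mem (mem_insert_of_mem h5)
        · refine ⟨hS.ne, hS.xA, fun h5 => hS.xB (mem_sdiff.1 h5).1, hS.yA,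
            fun h5 => hS.yB (mem_sdiff.1 h5).1, hS.nA, ?_,
            disjoint_left.2 fun z h5 h6 => disjoint_left.1 hS.dis h5 (mem_sdiff.1 h6).1, ?_, ?_⟩
          · rcases huv with h5 | h5
            · exact ⟨u, mem_sdiff.2 ⟨h5, hS'.xB⟩⟩
            · exact ⟨v, mem_sdiff.2 ⟨h5, hS'.yB⟩⟩
          · ext z
            rw [mem_insert, mem_insert, mem_union, mem_sdiff, mem_insert, mem_insert]
            have k1 := m1 z
            have k2 := m2 z
            constructor
            · intro h5
              have h6 : z ∈ Y ∧ z ∉ D := by
                rcases h5 with h5 | h5 | h5 | h5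
                · exact ⟨k1.2 (Or.inl h5), h5 ▸ hd.1⟩
                · exact ⟨k1.2 (Or.inr (Or.inl h5)), h5 ▸ hd.2⟩
                · exact ⟨k1.2 (Or.inr (Or.inr (Or.inl h5))), disjoint_left.1 hS'.dis (hAC z h5)⟩
                · exact ⟨k1.2 (Or.inr (Or.inr (Or.inr h5.1))), h5.2⟩
              rcases k2.1 h6.1 with h7 | h7 | h7 | h7
              · exact Or.inl h7
              · exact Or.inr (Or.inl h7)
              · exact Or.inr (Or.inr h7)
              · exact absurd h7 h6.2
            · intro h5
              have h6 : z ∈ Y ∧ z ∉ D := by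
                rcases h5 with h5 | h5 | h5
                · exact ⟨k2.2 (Or.inl h5), h5 ▸ hS'.xB⟩
                · exact ⟨k2.2 (Or.inr (Or.inl h5)), h5 ▸ hS'.yB⟩
                · exact ⟨k2.2 (Or.inr (Or.inr (Or.inl h5))), disjoint_left.1 hS'.dis h5⟩
              rcases k1.1 h6.1 with h7 | h7 | h7 | h7
              · exact Or.inl h7
              · exact Or.inr (Or.inl h7)
              · exact Or.inr (Or.inr (Or.inl h7))
              · exact Or.inr (Or.inr (Or.inr ⟨h7, h6.2⟩))
          · intro a ha b hb hab
            rcases mem_insert.1 hab with h5 | h5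
            · rcases Sym2.eq_iff.1 h5 with ⟨rfl, rfl⟩ | ⟨rfl, rfl⟩
              · exact h2 ha
              · exact h3 ha
            · exact hS.no a ha b (mem_sdiff.1 hb).1 h5

end H26U
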